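import Pool.Agent.Helper46.NU.Goals1

/-!
# MP_1fe1ca_lc: packet SUP (countable supports of measurable sets)
-/

open MeasureTheory Filter Topology Set
open scoped ENNReal

noncomputable section

namespace NU.PkSUP

open NU

/-- The sets which depend on countably many coordinates. -/
def supSpace (C X : Type) : MeasurableSpace (C → X) where
  MeasurableSet' K := ∃ Γ : Set C, Γ.Countable ∧ ∀ z z' : C → X, (∀ c ∈ Γ, z c = z' c) →
    (z ∈ K ↔ z' ∈ K)
  measurableSet_empty := ⟨∅, countable_empty, fun z z' _ => by simp⟩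
  measurableSet_compl := by
    rintro K ⟨Γ, hΓ, h⟩
    exact ⟨Γ, hΓ, fun z z' hz => not_congr (h z z' hz)⟩
  measurableSet_iUnion := by
    intro K hK
    choose Γ hΓ h using hK
    refine ⟨⋃ i, Γ i, countable_iUnion hΓ, fun z z' hz => ?_⟩
    simp only [mem_iUnion]
    exact exists_congr fun i => h i z z' fun c hc => hz c (mem_iUnion.2 ⟨i, hc⟩)

theorem supp_one {C X : Type} [MeasurableSpace X] {K : Set (C → X)} (hK : MeasurableSet K) :
    ∃ Γ : Set C, Γ.Countable ∧ ∀ z z' : C → X, (∀ c ∈ Γ, z c = z' c) → (z ∈ K ↔ z' ∈ K) := by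
  have hle : (MeasurableSpace.pi : MeasurableSpace (C → X)) ≤ supSpace C X := by
    refine iSup_le fun c => ?_
    rintro _ ⟨B, _, rfl⟩
    exact ⟨{c}, countable_singleton c, fun z z' hz => by
      simp only [mem_preimage]
      rw [hz c rfl]⟩
  exact hle K hK

theorem sup : G_SUP := by
  intro S K hK
  have h := fun i => supp_one (C := S.C) (X := ℕ → Bool) (hK i)
  choose Γ hΓ h using h
  exact ⟨⋃ i, Γ i, countable_iUnion hΓ, fun z z' hz i =>
    h i z z' fun c hc => hz c (mem_iUnion.2 ⟨i, hc⟩)⟩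

end NU.PkSUP
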